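import Mathlib
import Pool.Agent.Y703.CQ.Stm

/-!
# Project AQ (helper18): the exact proportion for all odd squarefree numbers

`D` runs over ALL odd squarefree numbers (or over those that are `1`, or `3`, modulo `4`: parameter `K`).
The matrix over `𝔽₂` indexed by the primes of `D` with the entries `[q / p]` off the diagonal and the row
sums `[2 / p]` (or `[-2 / p]`: parameter `b`) is not symmetric: `[q / p] + [p / q] = [-1 / p] [-1 / q]`. It is
nonsingular for exactly the proportion `∏_{i ≥ 1} (1 - 2^{-i}) = 0.2887...`. This is an adaptation of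
`Pool/Agent/R413/SQ` (class of the primes `1` modulo `4`, symmetric matrices) to all odd primes; only the
linear algebra (`S_LA`) is new.
-/

set_option autoImplicit false
set_option linter.unusedVariables false

open scoped Classical

namespace Pool.Agent.E8helper18.AQ

open Finset
open Pool.Agent.Y703.CX (sm la jj XX eL zz kk S_SIE)
open Pool.Agent.Y703.CQ (nr sg prs HB S_EQ S_MER S_CHE)

/-- `[-1 / p]` -/
def ep (p : ℕ) : ZMod 2 := if p % 4 = 3 then 1 else 0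

/-- the row sums -/
noncomputable def fF (b : ZMod 2) (p : ℕ) : ZMod 2 := nr p 2 + b * ep p

/-- the kernel of the matrix -/
def Sol (f : ℕ → ZMod 2) (S : Finset ℕ) (x : ℕ → ZMod 2) : Prop :=
  ∀ p ∈ S, ∑ q ∈ S, nr p q * (x q + x p) + f p * x p = 0

/-- the good sets: the matrix is nonsingular -/
def Gd (f : ℕ → ZMod 2) (S : Finset ℕ) : Prop := ∀ x, Sol f S x → ∀ p ∈ S, x p = 0

/-- the class of the sets of primes: `K` is the set of the allowed parities of the number of the primes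
`3` modulo `4` -/
def Cl (K : Finset ℕ) (S : Finset ℕ) : Prop :=
  (∀ p ∈ S, p.Prime ∧ p ≠ 2) ∧ (S.filter fun p => p % 4 = 3).card % 2 ∈ K

/-- the parameters -/
def Ok (K : Finset ℕ) : Prop := 0 ∈ K ∨ 1 ∈ K

/-- the sets of the class with product at most `X` -/
noncomputable def SS (K : Finset ℕ) (X : ℕ) : Finset (Finset ℕ) :=
  (range (X + 1)).powerset.filter fun S => Cl K S ∧ ∏ p ∈ S, p ≤ X

/-- the limit `(1 - 1/2) (1 - 1/4) (1 - 1/8) ⋯` -/
noncomputable def cc : ℝ := ∏' i : ℕ, (1 - (1 / 2 : ℝ) ^ (i + 1))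

/-- the proportion of the good sets -/
def S_DQ : Prop := ∀ (K : Finset ℕ) (b : ZMod 2), Ok K → Filter.Tendsto
  (fun X : ℕ => (((SS K X).filter (Gd (fF b))).card : ℝ) / ((SS K X).card : ℝ)) Filter.atTop (nhds cc)

/-! ### Linear algebra -/

/-- CC: the constant (numerical bounds; `s_m` are the partial sums of the series for `cc`). -/
def S_CC : Prop := 0.2887 < cc ∧ cc < 0.2888 ∧
  Filter.Tendsto (fun m : ℕ => ∑ j ∈ range (m + 1), (-1 : ℝ) ^ j / ∏ i ∈ range j, ((2 : ℝ) ^ (i + 1) - 1))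
    Filter.atTop (nhds cc)

/-- BON: Bonferroni's inequalities. If the mean number of the injective maps from `𝔽₂ ^ j` to a space of
random dimension `r` is near to one for all small `j`, the dimension is zero with probability near to
`cc`. -/
def S_BON : Prop := S_CC → ∀ η : ℝ, 0 < η → ∃ (m : ℕ) (δ : ℝ), 0 < δ ∧
  ∀ (Ω : Type) [Fintype Ω] [Nonempty Ω] (r : Ω → ℕ),
    (∀ j : ℕ, 1 ≤ j → j ≤ m → |∑ ω, ∏ i ∈ range j, ((2 : ℝ) ^ r ω - 2 ^ i) - (Fintype.card Ω : ℝ)| ≤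
      δ * (Fintype.card Ω : ℝ)) →
    |((univ.filter fun ω => r ω = 0).card : ℝ) - cc * (Fintype.card Ω : ℝ)| ≤ η * (Fintype.card Ω : ℝ)

/-- the symbols of a tuple from the free ones: `R l k = R k l + ε k ε l` -/
noncomputable def rx {ι : Type} [Fintype ι] [LinearOrder ι] (ε : ι → ZMod 2)
    (α : prs (univ : Finset ι) → ZMod 2) (k l : ι) : ZMod 2 :=
  if h : (k, l) ∈ prs (univ : Finset ι) then α ⟨(k, l), h⟩
  else if h' : (l, k) ∈ prs (univ : Finset ι) then α ⟨(l, k), h'⟩ + ε k * ε l else 0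

section block

variable {U J : Type} [Fintype U] [Fintype J]

/-- the solutions of the block system -/
def SolA (A : U → U → ZMod 2) (B : U → J → ZMod 2) (C : J → U → ZMod 2) (R : J → J → ZMod 2)
    (f : U → ZMod 2) (g : J → ZMod 2) (z : (U → ZMod 2) × (J → ZMod 2)) : Prop :=
  (∀ u, ∑ v, A u v * (z.1 v + z.1 u) + ∑ l, B u l * (z.2 l + z.1 u) + f u * z.1 u = 0) ∧
  ∀ k, ∑ u, C k u * (z.1 u + z.2 k) + ∑ l, R k l * (z.2 l + z.2 k) + g k * z.2 k = 0

/-- the data of a block system: the small primes `U`, the large primes `J`, their symbols and `[-1 / p]` -/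
structure Dat (A : U → U → ZMod 2) (B : U → J → ZMod 2) (C : J → U → ZMod 2)
    (f : U → ZMod 2) (g : J → ZMod 2) (e : U → ZMod 2) (ε : J → ZMod 2) (V : ℕ) : Prop where
  aa : ∀ u v, u ≠ v → A u v + A v u = e u * e v
  bc : ∀ u k, B u k + C k u = e u * ε k
  nd : ∀ (w : U → ZMod 2) (a c : ZMod 2), ((∃ u, w u ≠ 0) ∨ a ≠ 0 ∨ c ≠ 0) →
    ∃ k, ∑ u, w u * C k u + a * g k + c * ε k ≠ 0
  big : 2 * Fintype.card U + V ≤ (univ.filter fun k => ε k = 1).card

end block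

/-- the number of the `j`-tuples of linearly independent solutions -/
noncomputable def Nind {U J : Type} [Fintype U] [Fintype J] (A : U → U → ZMod 2) (B : U → J → ZMod 2)
    (C : J → U → ZMod 2) (R : J → J → ZMod 2) (f : U → ZMod 2) (g : J → ZMod 2) (j : ℕ) : ℕ :=
  Nat.card {z : Fin j → (U → ZMod 2) × (J → ZMod 2) //
    LinearIndependent (ZMod 2) z ∧ ∀ i, SolA A B C R f g (z i)}

/-- SYS: the number of the completions with prescribed values on `j` vectors. -/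
def S_SYS : Prop := ∀ (J : Type) [Fintype J] [LinearOrder J] (ε : J → ZMod 2) (j : ℕ)
  (y b : Fin j → J → ZMod 2),
  LinearIndependent (ZMod 2) (Fin.cons (fun _ => 1) y : Fin (j + 1) → J → ZMod 2) →
  Nat.card {α : prs (univ : Finset J) → ZMod 2 //
      ∀ i k, ∑ l, rx ε α k l * (y i l + y i k) = b i k} * 2 ^ (j * Fintype.card J) =
    if (∀ i, ∑ k, b i k = (∑ k, ε k * y i k) * (∑ k, ε k + 1)) ∧
      (∀ i i', ∑ k, (y i' k * b i k + y i k * b i' k) =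
        (∑ k, ε k * y i k) * (∑ k, ε k * y i' k) + ∑ k, ε k * y i k * y i' k)
    then 2 ^ ((prs (univ : Finset J)).card + j * (j + 1) / 2) else 0

/-- TUP: the number of the tuples of pairwise orthogonal vectors. -/
def S_TUP : Prop := ∀ (W : Type) [AddCommGroup W] [Module (ZMod 2) W] [Fintype W]
  (N : W →ₗ[ZMod 2] W →ₗ[ZMod 2] ZMod 2) (ρ j : ℕ), (∀ x, N x x = 0) →
  (univ.filter fun x : W => ∀ y, N x y = 0).card * 2 ^ ρ ≤ Fintype.card W →
  |((univ.filter fun x : Fin j → W => ∀ a b, N (x a) (x b) = 0).card : ℝ) * 2 ^ (j * (j - 1) / 2) -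
      (Fintype.card W : ℝ) ^ j| ≤ 2 ^ (j * (j - 1) / 2) * (Fintype.card W : ℝ) ^ j / 2 ^ ρ

section form

variable {U J : Type} [Fintype U] [Fintype J]

/-- the form `z' (M + Mᵗ) z` -/
def NN (e : U → ZMod 2) (ε : J → ZMod 2) (z z' : (U → ZMod 2) × (J → ZMod 2)) : ZMod 2 :=
  (∑ u, e u * z.1 u + ∑ k, ε k * z.2 k) * (∑ u, e u * z'.1 u + ∑ k, ε k * z'.2 k) +
    (∑ u, e u * z.1 u * z'.1 u + ∑ k, ε k * z.2 k * z'.2 k)

/-- the equations of the small primes -/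
def CA (A : U → U → ZMod 2) (B : U → J → ZMod 2) (f : U → ZMod 2)
    (z : (U → ZMod 2) × (J → ZMod 2)) : Prop :=
  ∀ u, ∑ v, A u v * (z.1 v + z.1 u) + ∑ l, B u l * (z.2 l + z.1 u) + f u * z.1 u = 0

/-- the part of an equation of a large prime which does not depend on the completion -/
def bb (C : J → U → ZMod 2) (g : J → ZMod 2) (z : (U → ZMod 2) × (J → ZMod 2)) (k : J) : ZMod 2 :=
  ∑ u, C k u * (z.1 u + z.2 k) + g k * z.2 k

/-- the sum of the equations of the large primes -/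
def CB (C : J → U → ZMod 2) (g : J → ZMod 2) (ε : J → ZMod 2)
    (z : (U → ZMod 2) × (J → ZMod 2)) : Prop :=
  ∑ k, bb C g z k = (∑ k, ε k * z.2 k) * (∑ k, ε k + 1)

end form

/-- IDE: the form on the solutions of the equations of the small primes. -/
def S_IDE : Prop := ∀ (U J : Type) [Fintype U] [Fintype J] (A : U → U → ZMod 2) (B : U → J → ZMod 2)
  (C : J → U → ZMod 2) (f : U → ZMod 2) (g : J → ZMod 2) (e : U → ZMod 2) (ε : J → ZMod 2),
  (∀ u v, u ≠ v → A u v + A v u = e u * e v) → (∀ u k, B u k + C k u = e u * ε k) →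
  ∀ z z', CA A B f z → CA A B f z' →
    ∑ k, (z'.2 k * bb C g z k + z.2 k * bb C g z' k) =
      NN e ε z z' + (∑ k, ε k * z.2 k) * (∑ k, ε k * z'.2 k) + ∑ k, ε k * z.2 k * z'.2 k

/-- WSP: the space of the `z` with `CA` and `CB`, and the radical of the form on it. -/
def S_WSP : Prop := ∀ (U J : Type) [Fintype U] [Fintype J] (A : U → U → ZMod 2) (B : U → J → ZMod 2)
  (C : J → U → ZMod 2) (f : U → ZMod 2) (g : J → ZMod 2) (e : U → ZMod 2) (ε : J → ZMod 2) (V : ℕ),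
  Dat A B C f g e ε (V + 3) →
  (univ.filter fun z : (U → ZMod 2) × (J → ZMod 2) => CA A B f z ∧ CB C g ε z).card * 2 =
    2 ^ Fintype.card J ∧
  (univ.filter fun z : (U → ZMod 2) × (J → ZMod 2) => (CA A B f z ∧ CB C g ε z) ∧
    ∀ z', CA A B f z' → CB C g ε z' → NN e ε z z' = 0).card * 2 ^ (V + 1) ≤ 2 ^ Fintype.card J

/-- the moments of the kernel of a random completion -/
def MomC : Prop := ∀ (j : ℕ) (δ : ℝ), 0 < δ → ∃ V : ℕ, ∀ (U J : Type) [Fintype U] [Fintype J]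
  [LinearOrder J] (A : U → U → ZMod 2) (B : U → J → ZMod 2) (C : J → U → ZMod 2)
  (f : U → ZMod 2) (g : J → ZMod 2) (e : U → ZMod 2) (ε : J → ZMod 2), Dat A B C f g e ε V →
  |∑ α : prs (univ : Finset J) → ZMod 2, (Nind A B C (rx ε α) f g j : ℝ) -
    2 ^ (prs (univ : Finset J)).card| ≤ δ * 2 ^ (prs (univ : Finset J)).card

/-- MOM -/
def S_MOM : Prop := S_SYS → S_TUP → S_IDE → S_WSP → MomC

/-- the block system has only the zero solution -/
def GdA {U J : Type} [Fintype U] [Fintype J] (A : U → U → ZMod 2) (B : U → J → ZMod 2)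
    (C : J → U → ZMod 2) (R : J → J → ZMod 2) (f : U → ZMod 2) (g : J → ZMod 2) : Prop :=
  ∀ z, SolA A B C R f g z → z = 0

/-- the probability that a random completion is good -/
def LaC : Prop := ∀ η : ℝ, 0 < η → ∃ V : ℕ, ∀ (U J : Type) [Fintype U] [Fintype J]
  [LinearOrder J] (A : U → U → ZMod 2) (B : U → J → ZMod 2) (C : J → U → ZMod 2)
  (f : U → ZMod 2) (g : J → ZMod 2) (e : U → ZMod 2) (ε : J → ZMod 2), Dat A B C f g e ε V →
  |((univ.filter fun α : prs (univ : Finset J) → ZMod 2 => GdA A B C (rx ε α) f g).card : ℝ) /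
      2 ^ (prs (univ : Finset J)).card - cc| ≤ η

/-- LA -/
def S_LA : Prop := S_CC → S_BON → MomC → LaC

/-! ### The count -/

/-- BIL: bilinear sums of quadratic symbols. -/
def S_BIL : Prop := ∃ C : ℝ, 1 ≤ C ∧ ∀ (P Q : Finset ℕ) (A B z : ℕ) (c d : ℕ → ℂ),
  (∀ p ∈ P, p.Prime ∧ p ≠ 2 ∧ p ≤ A) → (∀ q ∈ Q, q.Prime ∧ q ≠ 2 ∧ q ≤ B) →
  Disjoint P Q → 1 ≤ z → z ≤ A → z ≤ B → (∀ p, ‖c p‖ ≤ 1) → (∀ q, ‖d q‖ ≤ 1) →
  ‖∑ p ∈ P, ∑ q ∈ Q, c p * d q * sg (nr p q)‖ ^ 12 * z ≤ C * ((A : ℝ) * B) ^ 12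

/-- the labels of the large primes with respect to the small ones are not degenerate -/
def Nd (b : ZMod 2) (S₀ S₁ : Finset ℕ) : Prop :=
  ∀ (w : ℕ → ZMod 2) (a c : ZMod 2), ((∃ u ∈ S₀, w u ≠ 0) ∨ a ≠ 0 ∨ c ≠ 0) →
    ∃ p ∈ S₁, ∑ u ∈ S₀, w u * nr p u + a * fF b p + c * ep p ≠ 0

/-- BOX: the count in a box. -/
def S_BOX : Prop := S_EQ → LaC → ∀ η : ℝ, 0 < η → ∃ V : ℕ, ∀ (b : ZMod 2) (ι : Type) [Fintype ι]
  [LinearOrder ι] (J3 : Finset ι) (C : ι → Finset ℕ) (X : ι → ℕ) (κ : ℝ) (S₀ : Finset ℕ), 0 ≤ κ →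
  (∀ i, (C i).card ≤ X i) → HB univ C X κ → (∀ u ∈ S₀, u.Prime ∧ u ≠ 2) →
  (∀ i, ∀ p ∈ C i, p.Prime ∧ p ≠ 2 ∧ p ∉ S₀ ∧ (i ∈ J3 ↔ p % 4 = 3)) →
  (∀ i l, i ≠ l → Disjoint (C i) (C l)) → 2 * S₀.card + V ≤ J3.card →
  |(((Fintype.piFinset C).filter fun p =>
        Nd b S₀ (univ.image p) ∧ Gd (fF b) (S₀ ∪ univ.image p)).card : ℝ) -
      cc * (((Fintype.piFinset C).filter fun p => Nd b S₀ (univ.image p)).card : ℝ)| ≤
    η * (((Fintype.piFinset C).filter fun p => Nd b S₀ (univ.image p)).card : ℝ) +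
    2 ^ ((2 * S₀.card + 1) * Fintype.card ι + (prs (univ : Finset ι)).card) * (κ * ∏ j, (X j : ℝ))

/-- the regular sets -/
noncomputable def RR (K : Finset ℕ) (X z H k V : ℕ) : Finset (Finset ℕ) :=
  (SS K X).filter fun S => Set.InjOn (jj H) (la z S : Set ℕ) ∧ S.card ≤ k ∧
    (∏ p ∈ sm z S, p) * ∏ p ∈ la z S, XX H (jj H p) ≤ X ∧
    2 * (sm z S).card + V ≤ ((la z S).filter fun p => p % 4 = 3).card

/-- the sum over the boxes -/
def KeyC : Prop := ∀ η : ℝ, 0 < η → ∃ (V : ℕ) (C : ℝ), 1 ≤ C ∧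
  ∀ (K : Finset ℕ) (b : ZMod 2) (X z H k N : ℕ) (κ : ℝ), 1 ≤ X → 1 ≤ H → 1 ≤ z →
  0 ≤ κ → C ≤ κ ^ 12 * z → (H : ℝ) * Real.log X < N →
  |(((RR K X z H k V).filter fun S => Nd b (sm z S) (la z S) ∧ Gd (fF b) S).card : ℝ) -
      cc * (((RR K X z H k V).filter fun S => Nd b (sm z S) (la z S)).card : ℝ)| ≤
    η * ((RR K X z H k V).card : ℝ) +
    (9 * N + 9 : ℝ) ^ k * (3 ^ (3 * k ^ 2) * κ) * (X * (1 + Real.log X))

/-- KEY -/
def S_KEY : Prop := S_BIL → S_EQ → LaC → S_BOX → KeyC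

/-- CNT: sets with many primes, sets near the boundary, sets with two primes in a block. -/
structure CntP : Prop where
  many : ∀ (K : Finset ℕ) (X k : ℕ), 1 ≤ X →
    (((SS K X).filter fun S => k < S.card).card : ℝ) * 2 ^ k ≤ X * (1 + Real.log X)
  cut : ∀ (K : Finset ℕ) (X z H k : ℕ), 1 ≤ X → 1 ≤ H →
    (((SS K X).filter fun S => S.card ≤ k ∧
      X < (∏ p ∈ sm z S, p) * ∏ p ∈ la z S, XX H (jj H p)).card : ℝ) ≤ X * k / H + 1
  coll : ∀ (K : Finset ℕ) (X z H : ℕ), 1 ≤ X → 1 ≤ H → (((SS K X).filter fun S =>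
    ¬ Set.InjOn (jj H) (la z S : Set ℕ)).card : ℝ) ≤ 4 * X * (1 + Real.log X) / H

/-- the sets of primes on which a quadratic character is trivial -/
noncomputable def HD (W : Finset ℕ) (a c : ZMod 2) (T : ℕ) : Finset (Finset ℕ) :=
  (range (T + 1)).powerset.filter fun S =>
    (∀ p ∈ S, (p.Prime ∧ p ≠ 2) ∧ p ∉ W ∧ ∑ u ∈ W, nr p u + a * nr p 2 + c * ep p = 0) ∧
    ∏ p ∈ S, p ≤ T

/-- HAL: the logarithmic density for a nontrivial quadratic character. -/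
def S_HAL : Prop := ∃ C : ℝ, 1 ≤ C ∧ ∀ (W : Finset ℕ) (a c : ZMod 2) (T : ℕ),
  (W.Nonempty ∨ a ≠ 0 ∨ c ≠ 0) → (∀ u ∈ W, u.Prime ∧ u ≠ 2) → 2 ≤ T →
  ∑ S ∈ HD W a c T, (1 : ℝ) / ((∏ p ∈ S, p : ℕ) : ℝ) ≤
    C * (Real.log ((8 * ∏ u ∈ W, u : ℕ) : ℝ)) ^ (1 / 2 : ℝ) * (Real.log T) ^ (1 / 2 : ℝ)

/-- few sets have degenerate labels -/
def BadC : Prop := ∀ (K : Finset ℕ) (b : ZMod 2), ∃ (C : ℝ) (X₀ : ℕ), ∀ X : ℕ, X₀ ≤ X →
  (((SS K X).filter fun S => S.card ≤ kk X ∧ ¬ Nd b (sm (zz X) S) (la (zz X) S)).card : ℝ) ≤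
    C * X * (Real.log X) ^ (-1 / 32 : ℝ)

/-- BAD -/
def S_BAD : Prop := S_SIE → S_HAL → BadC

/-- few sets have few large primes `3` modulo `4` -/
def FewC : Prop := ∀ (K : Finset ℕ) (V : ℕ), ∃ (C : ℝ) (X₀ : ℕ), ∀ X : ℕ, X₀ ≤ X →
  (((SS K X).filter fun S => ((la (zz X) S).filter fun p => p % 4 = 3).card <
      2 * (sm (zz X) S).card + V).card : ℝ) ≤
    C * X * (Real.log X) ^ (-1 / 32 : ℝ)

/-- FEW -/
def S_FEW : Prop := S_SIE → S_MER → FewC

/-- LOW: the size of the class. -/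
def S_LOW : Prop := ∀ K : Finset ℕ, Ok K → ∃ (c : ℝ) (X₀ : ℕ), 0 < c ∧ ∀ X : ℕ, X₀ ≤ X →
  c * X ≤ ((SS K X).card : ℝ)

/-- ASY -/
def S_ASY : Prop := KeyC → CntP → BadC → FewC → S_LOW → S_DQ

/-! ### Translation -/

/-- if `D = d e`, `d` is a square modulo all the prime factors of `e` and `2 e` is a square modulo all the
prime factors of `d`, then `d = 1` -/
def Indec (D : ℕ) : Prop := ∀ d e : ℕ, D = d * e →
  (∀ p : ℕ, p.Prime → p ∣ e → IsSquare (d : ZMod p)) →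
  (∀ p : ℕ, p.Prime → p ∣ d → IsSquare ((2 * e : ℕ) : ZMod p)) → d = 1

/-- TRI -/
def S_TRI : Prop := ∀ D : ℕ, Squarefree D → D % 2 = 1 → (Indec D ↔ Gd (fF 0) D.primeFactors)

/-- the final statement: the proportion among all odd squarefree numbers, and in both classes
modulo `4` -/
def S_FIN : Prop := ∀ K : Finset ℕ, (1 ∈ K ∨ 3 ∈ K) → Filter.Tendsto
  (fun X : ℕ => (((Icc 1 X).filter fun D => (Squarefree D ∧ D % 2 = 1 ∧ D % 4 ∈ K) ∧ Indec D).card : ℝ) /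
    (((Icc 1 X).filter fun D => Squarefree D ∧ D % 2 = 1 ∧ D % 4 ∈ K).card : ℝ))
  Filter.atTop (nhds cc)

/-- NS -/
def S_NS : Prop := S_DQ → S_TRI → S_FIN

end Pool.Agent.E8helper18.AQ
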